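import Pool.Agent.H23.BG.TargetsW

/-!
Row W_HD: Hasse derivatives of `f ^ N * k`.
-/

set_option autoImplicit false

open Polynomial

namespace Pool.Agent.H34.BG.HD

open Pool.Agent.H23.BG

private lemma dvd_hasse {F : Type} [Field F] (f : F[X]) :
    ∀ (N l : ℕ) (k : F[X]), f ^ (N - l) ∣ hasseDeriv l (f ^ N * k) := by
  intro N
  induction N with
  | zero =>
    intro l k
    rw [Nat.zero_sub, pow_zero]
    exact one_dvd _
  | succ N ih =>
    intro l k
    rw [pow_succ', mul_assoc, hasseDeriv_mul]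
    refine Finset.dvd_sum fun ij hij => ?_
    rw [Finset.HasAntidiagonal.mem_antidiagonal] at hij
    rcases Nat.eq_zero_or_pos ij.1 with h0 | h0
    · have hl : ij.2 = l := by omega
      rw [h0, hasseDeriv_zero', hl]
      have h1 : f ^ (N + 1 - l) ∣ f * f ^ (N - l) := by
        rw [← pow_succ']
        exact pow_dvd_pow f (by omega)
      exact h1.trans (mul_dvd_mul_left f (ih l k))
    · exact Dvd.dvd.mul_left ((pow_dvd_pow f (by omega)).trans (ih ij.2 k)) _

theorem pf_W_HD : Pool.Agent.H23.BG.W_HD := by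
  intro F _ f hf N l hl
  have hg : f ^ (N - l) ≠ 0 := pow_ne_zero _ hf
  let L : F[X] →ₗ[F] F[X] := (hasseDeriv l).comp (LinearMap.mulLeft F (f ^ N))
  have hL : ∀ k, L k = hasseDeriv l (f ^ N * k) := fun k => rfl
  let mg : F[X] →ₗ[F] F[X] := LinearMap.mulLeft F (f ^ (N - l))
  have hmg : ∀ k, mg k = f ^ (N - l) * k := fun k => rfl
  have hinj : Function.Injective mg := by
    intro a b hab
    rw [hmg, hmg] at hab
    exact mul_left_cancel₀ hg hab
  have hran : ∀ k, L k ∈ LinearMap.range mg := by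
    intro k
    obtain ⟨q, hq⟩ := dvd_hasse f N l k
    exact ⟨q, by rw [hmg, hL, hq]⟩
  let Φ : F[X] →ₗ[F] F[X] :=
    (LinearEquiv.ofInjective mg hinj).symm.toLinearMap.comp (L.codRestrict (LinearMap.range mg) hran)
  have hΦ : ∀ k, hasseDeriv l (f ^ N * k) = f ^ (N - l) * Φ k := by
    intro k
    have h1 := (LinearEquiv.ofInjective mg hinj).apply_symm_apply
      ((L.codRestrict (LinearMap.range mg) hran) k)
    have h2 := congrArg Subtype.val h1
    rw [LinearEquiv.ofInjective_apply] at h2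
    rw [← hmg, ← hL]
    exact h2.symm
  refine ⟨Φ, hΦ, fun k D hD => ?_⟩
  by_cases h0 : Φ k = 0
  · rw [h0, natDegree_zero]
    exact Nat.zero_le _
  have h1 : (f ^ (N - l) * Φ k).natDegree = (N - l) * f.natDegree + (Φ k).natDegree := by
    rw [natDegree_mul hg h0, natDegree_pow]
  have h2 : (hasseDeriv l (f ^ N * k)).natDegree ≤ N * f.natDegree + D - l := by
    refine (natDegree_hasseDeriv_le _ _).trans (Nat.sub_le_sub_right ?_ l)
    refine natDegree_mul_le.trans ?_
    rw [natDegree_pow]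
    omega
  rw [hΦ k, h1] at h2
  obtain ⟨r, hr⟩ := Nat.exists_eq_add_of_le hl
  rcases Nat.eq_zero_or_pos f.natDegree with hm | hm
  · rw [hm] at h2 ⊢
    simp only [mul_zero, zero_add] at h2
    omega
  · obtain ⟨m', hm'⟩ : ∃ m', f.natDegree = m' + 1 := ⟨f.natDegree - 1, by omega⟩
    rw [hm', Nat.add_sub_cancel]
    rw [hm', hr, Nat.add_sub_cancel_left] at h2
    have h3 : (l + r) * (m' + 1) = l * m' + l + r * (m' + 1) := by ring
    omega

end Pool.Agent.H34.BG.HD
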