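import Pool.Agent.H23.BG.TargetsW

/-!
Row W_SC: character sums, with a constant depending on the order.
-/

set_option autoImplicit false

open Polynomial Finset

namespace Pool.Agent.H34.BG.SC

open Pool.Agent.H23.BG

/-- a character of order `d` is trivial on the kernel of the power `c` -/
private lemma chi_ker {F : Type} [Field F] [Fintype F] (χ : MulChar F ℂ) (d c : ℕ) (hc : 1 ≤ c)
    (hχ : orderOf χ = d) (hq : Fintype.card F = d * c + 1) (z : F) (hz : z ≠ 0)
    (hzc : z ^ c = 1) : χ z = 1 := by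
  obtain ⟨g, hg⟩ := IsCyclic.exists_monoid_generator (α := Fˣ)
  obtain ⟨a, ha⟩ := hg (Units.mk0 z hz)
  have ha' : g ^ a = Units.mk0 z hz := ha
  have hog : orderOf g = d * c := by
    have h1 : orderOf g = Nat.card Fˣ := by
      apply orderOf_eq_card_of_forall_mem_zpowers
      intro x
      obtain ⟨b, hb⟩ := hg x
      exact ⟨(b : ℤ), by simpa using hb⟩
    rw [h1, Nat.card_units, Nat.card_eq_fintype_card, hq, Nat.add_sub_cancel]
  have h2 : g ^ (a * c) = 1 := by
    rw [pow_mul, ha']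
    ext
    simpa using hzc
  have h3 : d * c ∣ a * c := by
    rw [← hog]
    exact orderOf_dvd_of_pow_eq_one h2
  obtain ⟨b, hb⟩ : d ∣ a := Nat.dvd_of_mul_dvd_mul_right (by omega) h3
  have h4 : z = ((g ^ a : Fˣ) : F) := by rw [ha', Units.val_mk0]
  have h5 : χ ((g : F)) ^ d = 1 := by
    rw [← MulChar.pow_apply_coe, ← hχ, pow_orderOf_eq_one, MulChar.one_apply_coe]
  rw [h4, Units.val_pow_eq_pow_val, map_pow, hb, pow_mul, h5, one_pow]

private lemma chi_eq {F : Type} [Field F] [Fintype F] (χ : MulChar F ℂ) (d c : ℕ) (hc : 1 ≤ c)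
    (hχ : orderOf χ = d) (hq : Fintype.card F = d * c + 1) (y y' : F) (hy : y ≠ 0) (hy' : y' ≠ 0)
    (h : y ^ c = y' ^ c) : χ y = χ y' := by
  have h1 : χ (y / y') = 1 := by
    apply chi_ker χ d c hc hχ hq _ (div_ne_zero hy hy')
    rw [div_pow, h, div_self (pow_ne_zero _ hy')]
  have h2 : y = (y / y') * y' := by field_simp
  rw [h2, map_mul, h1, one_mul]

open scoped Classical in
/-- the sum over the values -/
private lemma sum_val {F : Type} [Field F] [Fintype F] (χ : MulChar F ℂ) (c : ℕ) (hc : 1 ≤ c)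
    (yv : F → F) (hyv : ∀ y : F, y ≠ 0 → χ y = χ (yv (y ^ c))) (φ : F → F) :
    ∑ x : F, χ (φ x) = ∑ ζ ∈ (univ.filter fun y : F => y ≠ 0).image (fun y => y ^ c),
      χ (yv ζ) * ((univ.filter fun x : F => φ x ^ c = ζ).card : ℂ) := by
  have h1 : ∑ x : F, χ (φ x) = ∑ x ∈ univ.filter (fun x => φ x ≠ 0), χ (φ x) := by
    rw [Finset.sum_filter]
    refine Finset.sum_congr rfl fun x _ => ?_
    split_ifs with h
    · rfl
    · rw [not_not] at h
      rw [h, MulChar.map_zero]
  have h2 : ∀ x ∈ univ.filter (fun x => φ x ≠ 0), (fun x => φ x ^ c) x ∈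
      (univ.filter fun y : F => y ≠ 0).image (fun y => y ^ c) := by
    intro x hx
    rw [mem_filter] at hx
    exact mem_image.2 ⟨φ x, mem_filter.2 ⟨mem_univ _, hx.2⟩, rfl⟩
  rw [h1, ← Finset.sum_fiberwise_of_maps_to h2]
  refine Finset.sum_congr rfl fun ζ hζ => ?_
  rw [mem_image] at hζ
  obtain ⟨y, hy, hyζ⟩ := hζ
  rw [mem_filter] at hy
  have hζ0 : ζ ≠ 0 := by
    rw [← hyζ]
    exact pow_ne_zero _ hy.2
  have h3 : (univ.filter (fun x => φ x ≠ 0)).filter (fun x => φ x ^ c = ζ) =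
      univ.filter (fun x => φ x ^ c = ζ) := by
    ext x
    simp only [mem_filter, mem_univ, true_and]
    constructor
    · exact fun h => h.2
    · intro h
      refine ⟨fun h0 => hζ0 ?_, h⟩
      rw [← h, h0, zero_pow (by omega)]
  rw [h3, mul_comm, ← nsmul_eq_mul, ← Finset.sum_const]
  refine Finset.sum_congr rfl fun x hx => ?_
  rw [mem_filter] at hx
  rw [← hx.2]
  apply hyv
  intro h0
  apply hζ0
  rw [← hx.2, h0, zero_pow (by omega)]

open scoped Classical in
private lemma card_val {F : Type} [Field F] [Fintype F] (c : ℕ) (hc : 1 ≤ c) (φ : F → F) :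
    ∑ ζ ∈ (univ.filter fun y : F => y ≠ 0).image (fun y => y ^ c),
      (univ.filter fun x : F => φ x ^ c = ζ).card = (univ.filter fun x => φ x ≠ 0).card := by
  have h2 : ∀ x ∈ univ.filter (fun x => φ x ≠ 0), (fun x => φ x ^ c) x ∈
      (univ.filter fun y : F => y ≠ 0).image (fun y => y ^ c) := by
    intro x hx
    rw [mem_filter] at hx
    exact mem_image.2 ⟨φ x, mem_filter.2 ⟨mem_univ _, hx.2⟩, rfl⟩
  rw [Finset.card_eq_sum_card_fiberwise (fun x hx => Finset.mem_coe.2 (h2 x (Finset.mem_coe.1 hx)))]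
  refine Finset.sum_congr rfl fun ζ hζ => ?_
  rw [mem_image] at hζ
  obtain ⟨y, hy, hyζ⟩ := hζ
  rw [mem_filter] at hy
  have hζ0 : ζ ≠ 0 := by
    rw [← hyζ]
    exact pow_ne_zero _ hy.2
  congr 1
  ext x
  simp only [mem_filter, mem_univ, true_and]
  constructor
  · intro h
    refine ⟨fun h0 => hζ0 ?_, h⟩
    rw [← h, h0, zero_pow (by omega)]
  · exact fun h => h.2

theorem pf_W_SC (hST : Pool.Agent.H23.BG.W_ST) : Pool.Agent.H23.BG.W_SC := by
  classical
  intro d m hd hm hmd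
  obtain ⟨C, hC, hbd⟩ := hST d m hd hm hmd
  refine ⟨d * C + m, by positivity, ?_⟩
  intro F _ _ χ hχ f hf
  set Q : ℕ := Fintype.card F with hQ
  have hQ2 : 2 ≤ Q := Fintype.one_lt_card
  obtain ⟨c, hc⟩ : d ∣ Q - 1 := by
    rw [← hχ]
    exact MulChar.orderOf_dvd_card_sub_one F χ
  have hc1 : 1 ≤ c := by
    rcases Nat.eq_zero_or_pos c with h | h
    · rw [h, mul_zero] at hc
      omega
    · exact h
  have hq : Q = d * c + 1 := by omega
  have hχ1 : χ ≠ 1 := by
    intro h
    rw [h, orderOf_one] at hχ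
    omega
  set Zs : Finset F := (univ.filter fun y : F => y ≠ 0).image (fun y => y ^ c) with hZs
  have hex : ∀ ζ : F, ∃ y : F, ζ ∈ Zs → (y ≠ 0 ∧ y ^ c = ζ) := by
    intro ζ
    by_cases h : ζ ∈ Zs
    · rw [hZs, mem_image] at h
      obtain ⟨y, hy, hy2⟩ := h
      exact ⟨y, fun _ => ⟨(mem_filter.1 hy).2, hy2⟩⟩
    · exact ⟨0, fun h' => absurd h' h⟩
  choose yv hyv using hex
  have hyv' : ∀ y : F, y ≠ 0 → χ y = χ (yv (y ^ c)) := by
    intro y hy
    have h1 : y ^ c ∈ Zs := mem_image.2 ⟨y, mem_filter.2 ⟨mem_univ _, hy⟩, rfl⟩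
    obtain ⟨h2, h3⟩ := hyv _ h1
    exact chi_eq χ d c hc1 hχ hq y _ hy h2 h3.symm
  -- the sum of the values of the character
  have hfib : ∀ ζ ∈ Zs, (univ.filter fun x : F => (id x) ^ c = ζ).card =
      (univ.filter fun x : F => x ^ c = 1).card := by
    intro ζ hζ
    obtain ⟨h2, h3⟩ := hyv ζ hζ
    have h4 : (univ.filter fun x : F => (id x) ^ c = ζ) =
        (univ.filter fun x : F => x ^ c = 1).image (fun u => yv ζ * u) := by
      ext x
      simp only [mem_filter, mem_univ, true_and, mem_image, id]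
      constructor
      · intro h
        refine ⟨x / yv ζ, ?_, by field_simp⟩
        rw [div_pow, h, h3, div_self]
        rw [← h3]
        exact pow_ne_zero _ h2
      · rintro ⟨u, hu, rfl⟩
        rw [mul_pow, hu, mul_one, h3]
    rw [h4, Finset.card_image_of_injective _ (mul_right_injective₀ h2)]
  have hk1 : ((univ.filter fun x : F => x ^ c = 1).card : ℂ) ≠ 0 := by
    have : (univ.filter fun x : F => x ^ c = 1).card ≠ 0 := by
      rw [Finset.card_ne_zero]
      exact ⟨1, mem_filter.2 ⟨mem_univ _, one_pow c⟩⟩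
    exact_mod_cast this
  have hsum0 : ∑ ζ ∈ Zs, χ (yv ζ) = 0 := by
    have h1 := sum_val χ c hc1 yv hyv' id
    have h2 : ∑ x : F, χ (id x) = 0 := MulChar.sum_eq_zero_of_ne_one hχ1
    rw [h2] at h1
    have h3 : ∑ ζ ∈ Zs, χ (yv ζ) * ((univ.filter fun x : F => (id x) ^ c = ζ).card : ℂ) =
        (∑ ζ ∈ Zs, χ (yv ζ)) * ((univ.filter fun x : F => x ^ c = 1).card : ℂ) := by
      rw [Finset.sum_mul]
      exact Finset.sum_congr rfl fun ζ hζ => by rw [hfib ζ hζ]
    rw [← hZs, h3] at h1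
    exact (mul_eq_zero.1 h1.symm).resolve_right hk1
  -- number of the values
  have hZc : Zs.card ≤ d := by
    have h1 : Zs ⊆ (nthRoots d (1 : F)).toFinset := by
      intro ζ hζ
      obtain ⟨h2, h3⟩ := hyv ζ hζ
      rw [Multiset.mem_toFinset, mem_nthRoots (by omega), ← h3, ← pow_mul]
      have h4 := FiniteField.pow_card_sub_one_eq_one (yv ζ) h2
      rw [← hQ, hc, mul_comm] at h4
      exact h4
    exact (Finset.card_le_card h1).trans ((Multiset.toFinset_card_le _).trans (card_nthRoots d 1))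
  set B : ℝ := (Q : ℝ) / d + C * Real.sqrt Q with hB
  have hB0 : 0 ≤ B := by positivity
  have hN : ∀ ζ : F, ((univ.filter fun x : F => f.eval x ^ c = ζ).card : ℝ) ≤ B := by
    intro ζ
    have h1 := hbd F f hf c hq ζ
    rw [hB]
    convert h1
  -- the zeros of the polynomial
  have hf0 : f ≠ 0 := by
    intro h
    rw [h, natDegree_zero] at hf
    omega
  have hnz : Q - m ≤ (univ.filter fun x : F => f.eval x ≠ 0).card := by
    have h1 : (univ.filter fun x : F => f.eval x = 0).card ≤ m := by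
      have h2 : (univ.filter fun x : F => f.eval x = 0) ⊆ f.roots.toFinset := by
        intro x hx
        rw [mem_filter] at hx
        rw [Multiset.mem_toFinset, mem_roots hf0]
        exact hx.2
      rw [← hf]
      exact (Finset.card_le_card h2).trans ((Multiset.toFinset_card_le _).trans (card_roots' f))
    have h3 := Finset.card_filter_add_card_filter_not (s := (univ : Finset F))
      (fun x : F => f.eval x = 0)
    rw [Finset.card_univ, ← hQ] at h3
    have h4 : (univ.filter fun x : F => ¬ f.eval x = 0) = univ.filter fun x : F => f.eval x ≠ 0 :=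
      rfl
    rw [h4] at h3
    omega
  have hcv := card_val c hc1 (fun x => f.eval x)
  rw [← hZs] at hcv
  have hcv' : (Q : ℝ) - m ≤ ∑ ζ ∈ Zs, ((univ.filter fun x : F => f.eval x ^ c = ζ).card : ℝ) := by
    rw [← Nat.cast_sum, hcv]
    have h1 : (Q : ℝ) ≤ ((Q - m : ℕ) : ℝ) + m := by
      have : Q ≤ Q - m + m := by omega
      exact_mod_cast this
    have h2 : ((Q - m : ℕ) : ℝ) ≤ ((univ.filter fun x : F => f.eval x ≠ 0).card : ℝ) := by
      exact_mod_cast hnz
    linarith
  -- conclusion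
  rw [sum_val χ c hc1 yv hyv' (fun x => f.eval x), ← hZs]
  have h6 : ∑ ζ ∈ Zs, χ (yv ζ) * ((univ.filter fun x : F => f.eval x ^ c = ζ).card : ℂ) =
      -∑ ζ ∈ Zs, χ (yv ζ) *
        ((B - ((univ.filter fun x : F => f.eval x ^ c = ζ).card : ℝ) : ℝ) : ℂ) := by
    have h7 : ∑ ζ ∈ Zs, χ (yv ζ) * (B : ℂ) = 0 := by
      rw [← Finset.sum_mul, hsum0, zero_mul]
    push_cast
    simp only [mul_sub, Finset.sum_sub_distrib]
    rw [h7]
    ring
  rw [h6, norm_neg]
  have h8 : ∀ ζ ∈ Zs, ‖χ (yv ζ) *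
      ((B - ((univ.filter fun x : F => f.eval x ^ c = ζ).card : ℝ) : ℝ) : ℂ)‖ ≤
      B - ((univ.filter fun x : F => f.eval x ^ c = ζ).card : ℝ) := by
    intro ζ hζ
    rw [norm_mul, Complex.norm_real, Real.norm_of_nonneg (sub_nonneg.2 (hN ζ))]
    have h9 : ‖χ (yv ζ)‖ ≤ 1 := by
      have hu : IsUnit (yv ζ) := isUnit_iff_ne_zero.2 (hyv ζ hζ).1
      have h15 : χ (yv ζ) ^ d = 1 := by
        rw [← MulChar.pow_apply' χ (by omega : d ≠ 0), ← hχ, pow_orderOf_eq_one,
          MulChar.one_apply hu]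
      exact (Complex.norm_eq_one_of_pow_eq_one h15 (by omega)).le
    calc ‖χ (yv ζ)‖ * (B - ((univ.filter fun x : F => f.eval x ^ c = ζ).card : ℝ))
        ≤ 1 * (B - ((univ.filter fun x : F => f.eval x ^ c = ζ).card : ℝ)) :=
          mul_le_mul_of_nonneg_right h9 (sub_nonneg.2 (hN ζ))
      _ = _ := one_mul _
  refine (norm_sum_le _ _).trans ((Finset.sum_le_sum h8).trans ?_)
  rw [Finset.sum_sub_distrib, Finset.sum_const, nsmul_eq_mul]
  have hd0 : (0 : ℝ) < d := by
    have : 0 < d := by omega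
    exact_mod_cast this
  have h10 : (Zs.card : ℝ) * B ≤ d * B :=
    mul_le_mul_of_nonneg_right (by exact_mod_cast hZc) hB0
  have h11 : (d : ℝ) * B = Q + d * C * Real.sqrt Q := by
    rw [hB]
    field_simp
  have h12 : (1 : ℝ) ≤ Real.sqrt Q := by
    rw [Real.one_le_sqrt]
    exact_mod_cast (by omega : 1 ≤ Q)
  have h13 : (m : ℝ) ≤ m * Real.sqrt Q := le_mul_of_one_le_right (Nat.cast_nonneg m) h12
  have h14 : ((d : ℝ) * C + m) * Real.sqrt Q = d * C * Real.sqrt Q + m * Real.sqrt Q := by ring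
  rw [h14]
  linarith

end Pool.Agent.H34.BG.SC
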